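import Pool.Agent.H85.LK.Targets

/-! Gaussian Poincare inequality (board lk_modules, CH). -/

set_option autoImplicit false

open MeasureTheory Metric Set ProbabilityTheory Filter
open scoped ENNReal Topology NNReal

namespace Pool.Agent.H68.LK

open Pool.Agent.H85.LK

/-- the Gaussian density -/
noncomputable def gd (z : ℝ) : ℝ := gaussianPDFReal 0 1 z

theorem gd_eq (z : ℝ) : gd z = (Real.sqrt (2 * Real.pi))⁻¹ * Real.exp (-z ^ 2 / 2) := by
  unfold gd gaussianPDFReal
  simp

theorem gd_nonneg (z : ℝ) : 0 ≤ gd z := gaussianPDFReal_nonneg 0 1 z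

theorem gd_neg (z : ℝ) : gd (-z) = gd z := by
  rw [gd_eq, gd_eq, neg_sq]

theorem gd_meas : Measurable gd := measurable_gaussianPDFReal 0 1

theorem gd_deriv (z : ℝ) : HasDerivAt (fun z => -gd z) (z * gd z) z := by
  have h1 : HasDerivAt (fun z : ℝ => -z ^ 2 / 2) (-z) z := by
    have h2 : HasDerivAt (fun z : ℝ => -z ^ 2 / 2) (-((2 : ℕ) * z ^ (2 - 1)) / 2) z :=
      (hasDerivAt_pow 2 z).neg.div_const 2
    have e : -(((2 : ℕ) : ℝ) * z ^ (2 - 1)) / 2 = -z := by
      norm_num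
      ring
    rwa [e] at h2
  have h3 := (h1.exp.const_mul ((Real.sqrt (2 * Real.pi))⁻¹)).neg
  have e : (fun z => -gd z) =
      fun z => -((Real.sqrt (2 * Real.pi))⁻¹ * Real.exp (-z ^ 2 / 2)) := by
    funext w
    rw [gd_eq]
  rw [e, gd_eq]
  have e2 : -((Real.sqrt (2 * Real.pi))⁻¹ * (Real.exp (-z ^ 2 / 2) * -z)) =
      z * ((Real.sqrt (2 * Real.pi))⁻¹ * Real.exp (-z ^ 2 / 2)) := by ring
  rw [← e2]
  exact h3

theorem gd_tendsto : Tendsto (fun z => -gd z) atTop (𝓝 0) := by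
  have h1 : Tendsto (fun z : ℝ => -z ^ 2 / 2) atTop atBot := by
    have h2 : Tendsto (fun z : ℝ => z ^ 2) atTop atTop := tendsto_pow_atTop (by norm_num)
    have h3 : Tendsto (fun z : ℝ => z ^ 2 / 2) atTop atTop := h2.atTop_div_const (by norm_num)
    have h4 := tendsto_neg_atTop_atBot.comp h3
    refine h4.congr fun z => ?_
    simp only [Function.comp]
    ring
  have h5 := (Real.tendsto_exp_atBot.comp h1).const_mul ((Real.sqrt (2 * Real.pi))⁻¹)
  rw [mul_zero] at h5
  have h6 := h5.neg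
  rw [neg_zero] at h6
  refine h6.congr fun z => ?_
  rw [gd_eq]
  rfl

/-- the tail integral -/
theorem gd_tail (t : ℝ) (ht : 0 ≤ t) :
    ∫⁻ z in Ioi t, ENNReal.ofReal (z * gd z) = ENNReal.ofReal (gd t) := by
  have hpos : ∀ z ∈ Ioi t, 0 ≤ z * gd z := fun z hz =>
    mul_nonneg (ht.trans (le_of_lt hz)) (gd_nonneg z)
  have hi : IntegrableOn (fun z => z * gd z) (Ioi t) :=
    integrableOn_Ioi_deriv_of_nonneg (gd_deriv t).continuousAt.continuousWithinAt
      (fun z _ => gd_deriv z) hpos gd_tendsto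
  have h1 : ∫ z in Ioi t, z * gd z = 0 - -gd t :=
    integral_Ioi_of_hasDerivAt_of_nonneg (gd_deriv t).continuousAt.continuousWithinAt
      (fun z _ => gd_deriv z) hpos gd_tendsto
  rw [← ofReal_integral_eq_lintegral_ofReal hi
    ((ae_restrict_iff' measurableSet_Ioi).2 (ae_of_all _ hpos)), h1]
  congr 1
  ring

theorem ch_ii {d : ℝ → ℝ} (hd : Measurable d) {M : ℝ} (hM : ∀ z, |d z| ≤ M) (a b : ℝ) :
    IntervalIntegrable d volume a b := by
  rw [intervalIntegrable_iff]
  refine Measure.integrableOn_of_bounded (M := M) ?_ hd.aestronglyMeasurable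
    (ae_of_all _ fun z => hM z)
  simp [uIoc]

/-- Cauchy-Schwarz -/
theorem ch_cs {d : ℝ → ℝ} (hd : Measurable d) {M : ℝ} (hM : ∀ z, |d z| ≤ M) {z : ℝ}
    (hz : 0 < z) : (∫ t in (0 : ℝ)..z, d t) ^ 2 ≤ z * ∫ t in (0 : ℝ)..z, d t ^ 2 := by
  have i1 := ch_ii hd hM 0 z
  have i2 : IntervalIntegrable (fun t => d t ^ 2) volume 0 z :=
    ch_ii (hd.pow_const 2) (M := M ^ 2) (fun t => by
      rw [abs_pow]
      exact pow_le_pow_left₀ (abs_nonneg _) (hM t) 2) 0 z
  have h1 : ∀ c : ℝ, 0 ≤ (∫ t in (0 : ℝ)..z, d t ^ 2) - 2 * c * (∫ t in (0 : ℝ)..z, d t) +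
      c ^ 2 * z := by
    intro c
    have h2 : ∫ t in (0 : ℝ)..z, (d t - c) ^ 2 = (∫ t in (0 : ℝ)..z, d t ^ 2) -
        2 * c * (∫ t in (0 : ℝ)..z, d t) + c ^ 2 * z := by
      have e : (fun t => (d t - c) ^ 2) = fun t => (d t ^ 2 - 2 * c * d t) + c ^ 2 := by
        funext t
        ring
      rw [e, intervalIntegral.integral_add (i2.sub (i1.const_mul _)) intervalIntegrable_const,
        intervalIntegral.integral_sub i2 (i1.const_mul _), intervalIntegral.integral_const_mul,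
        intervalIntegral.integral_const, sub_zero, smul_eq_mul]
      ring
    rw [← h2]
    exact intervalIntegral.integral_nonneg hz.le fun t _ => sq_nonneg _
  have h3 := h1 ((∫ t in (0 : ℝ)..z, d t) / z)
  have h4 : (∫ t in (0 : ℝ)..z, d t ^ 2) - 2 * ((∫ t in (0 : ℝ)..z, d t) / z) *
      (∫ t in (0 : ℝ)..z, d t) + ((∫ t in (0 : ℝ)..z, d t) / z) ^ 2 * z =
      (∫ t in (0 : ℝ)..z, d t ^ 2) - (∫ t in (0 : ℝ)..z, d t) ^ 2 / z := by
    field_simp
    ring
  rw [h4, sub_nonneg, div_le_iff₀ hz] at h3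
  linarith

/-- the inequality on the half line -/
theorem ch_half {φ d : ℝ → ℝ} (hd : Measurable d) {M : ℝ} (hM : ∀ z, |d z| ≤ M)
    (hφ : ∀ z : ℝ, φ z - φ 0 = ∫ t in (0 : ℝ)..z, d t) :
    ∫⁻ z in Ioi (0 : ℝ), ENNReal.ofReal (gd z) * ENNReal.ofReal ((φ z - φ 0) ^ 2) ≤
      ∫⁻ z in Ioi (0 : ℝ), ENNReal.ofReal (gd z) * ENNReal.ofReal (d z ^ 2) := by
  let F : ℝ → ℝ → ℝ≥0∞ := fun z t => if 0 < t ∧ t < z then
    ENNReal.ofReal (d t ^ 2) * ENNReal.ofReal (z * gd z) else 0
  have hF : Measurable (Function.uncurry F) := by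
    refine Measurable.ite ?_ ?_ measurable_const
    · exact (measurableSet_lt measurable_const measurable_snd).inter
        (measurableSet_lt measurable_snd measurable_fst)
    · exact ((hd.comp measurable_snd).pow_const 2).ennreal_ofReal.mul
        (measurable_fst.mul (gd_meas.comp measurable_fst)).ennreal_ofReal
  have hB : ∀ z ∈ Ioi (0 : ℝ), ENNReal.ofReal (gd z) * ENNReal.ofReal ((φ z - φ 0) ^ 2) ≤
      ∫⁻ t, F z t := by
    intro z hz
    have hz' : (0 : ℝ) < z := hz
    have e1 : ∫⁻ t, F z t =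
        (∫⁻ t in Ioo 0 z, ENNReal.ofReal (d t ^ 2)) * ENNReal.ofReal (z * gd z) := by
      rw [← lintegral_mul_const _ ((hd.pow_const 2).ennreal_ofReal),
        ← lintegral_indicator measurableSet_Ioo]
      refine lintegral_congr fun t => ?_
      by_cases h : 0 < t ∧ t < z
      · have h' : t ∈ Ioo 0 z := h
        show (if 0 < t ∧ t < z then _ else _) = _
        rw [if_pos h, indicator_of_mem h']
      · have h' : t ∉ Ioo 0 z := h
        show (if 0 < t ∧ t < z then _ else _) = _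
        rw [if_neg h, indicator_of_notMem h']
    have i2 : IntegrableOn (fun t => d t ^ 2) (Ioc 0 z) :=
      (ch_ii (hd.pow_const 2) (M := M ^ 2) (fun t => by
        rw [abs_pow]
        exact pow_le_pow_left₀ (abs_nonneg _) (hM t) 2) 0 z).1
    have e2 : ∫⁻ t in Ioo 0 z, ENNReal.ofReal (d t ^ 2) =
        ENNReal.ofReal (∫ t in (0 : ℝ)..z, d t ^ 2) := by
      rw [intervalIntegral.integral_of_le hz'.le, restrict_Ioo_eq_restrict_Ioc,
        ofReal_integral_eq_lintegral_ofReal i2 (ae_of_all _ fun t => sq_nonneg _)]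
    rw [e1, e2, ← ENNReal.ofReal_mul (gd_nonneg z), ← ENNReal.ofReal_mul
      (intervalIntegral.integral_nonneg hz'.le fun t _ => sq_nonneg _)]
    refine ENNReal.ofReal_le_ofReal ?_
    rw [hφ z]
    have h1 := mul_le_mul_of_nonneg_left (ch_cs hd hM hz') (gd_nonneg z)
    linarith
  have hC : ∀ t, ∫⁻ z, F z t = (Ioi (0 : ℝ)).indicator
      (fun t => ENNReal.ofReal (gd t) * ENNReal.ofReal (d t ^ 2)) t := by
    intro t
    by_cases ht : 0 < t
    · rw [indicator_of_mem (show t ∈ Ioi (0 : ℝ) from ht), ← gd_tail t ht.le,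
        ← lintegral_mul_const _ (show Measurable fun z : ℝ => ENNReal.ofReal (z * gd z) from
          (measurable_id.mul gd_meas).ennreal_ofReal),
        ← lintegral_indicator measurableSet_Ioi]
      refine lintegral_congr fun z => ?_
      by_cases h : t < z
      · have h' : z ∈ Ioi t := h
        show (if 0 < t ∧ t < z then _ else _) = _
        rw [if_pos ⟨ht, h⟩, indicator_of_mem h', mul_comm]
      · have h' : z ∉ Ioi t := h
        show (if 0 < t ∧ t < z then _ else _) = _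
        rw [if_neg (fun h2 => h h2.2), indicator_of_notMem h']
    · rw [indicator_of_notMem (show t ∉ Ioi (0 : ℝ) from ht)]
      have e : (fun z => F z t) = fun _ => 0 := by
        funext z
        show (if 0 < t ∧ t < z then _ else _) = _
        rw [if_neg (fun h2 => ht h2.1)]
      rw [e, lintegral_zero]
  calc ∫⁻ z in Ioi (0 : ℝ), ENNReal.ofReal (gd z) * ENNReal.ofReal ((φ z - φ 0) ^ 2)
      ≤ ∫⁻ z in Ioi (0 : ℝ), ∫⁻ t, F z t := setLIntegral_mono' measurableSet_Ioi hB
    _ ≤ ∫⁻ z, ∫⁻ t, F z t := setLIntegral_le_lintegral _ _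
    _ = ∫⁻ t, ∫⁻ z, F z t := lintegral_lintegral_swap hF.aemeasurable
    _ = ∫⁻ t, (Ioi (0 : ℝ)).indicator
        (fun t => ENNReal.ofReal (gd t) * ENNReal.ofReal (d t ^ 2)) t := lintegral_congr hC
    _ = _ := lintegral_indicator measurableSet_Ioi _

theorem ch_split {f : ℝ → ℝ≥0∞} (hf : Measurable f) :
    ∫⁻ z, f z ∂(gaussianReal 0 1) = (∫⁻ z in Ioi (0 : ℝ), ENNReal.ofReal (gd z) * f z) +
      ∫⁻ z in Ioi (0 : ℝ), ENNReal.ofReal (gd z) * f (-z) := by
  have h1 : gaussianReal 0 1 = volume.withDensity (gaussianPDF 0 1) := by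
    rw [gaussianReal_of_var_ne_zero _ one_ne_zero]
  rw [h1, lintegral_withDensity_eq_lintegral_mul _ (measurable_gaussianPDF 0 1) hf]
  have h2 : ∀ z, (gaussianPDF 0 1 * f) z = ENNReal.ofReal (gd z) * f z := fun z => rfl
  simp only [h2]
  rw [← lintegral_add_compl _ (measurableSet_Ioi (a := (0 : ℝ)))]
  congr 1
  rw [compl_Ioi, ← restrict_Iio_eq_restrict_Iic]
  have h3 : MeasurePreserving (fun z : ℝ => -z) volume volume := Measure.measurePreserving_neg _
  have h4 : MeasurableEmbedding (fun z : ℝ => -z) := (MeasurableEquiv.neg ℝ).measurableEmbedding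
  have h5 := h3.setLIntegral_comp_preimage_emb h4
    (fun z => ENNReal.ofReal (gd z) * f z) (Iio (0 : ℝ))
  rw [← h5]
  have h6 : (fun z : ℝ => -z) ⁻¹' Iio 0 = Ioi 0 := by
    ext z
    simp
  rw [h6]
  refine lintegral_congr fun z => ?_
  rw [gd_neg]

theorem pf_CH : T_CH := by
  intro φ d hφm hd hM hφ
  obtain ⟨M, hM⟩ := hM
  have hM0 : 0 ≤ M := (abs_nonneg _).trans (hM 0)
  have key : ∫⁻ z, ENNReal.ofReal ((φ z - φ 0) ^ 2) ∂(gaussianReal 0 1) ≤
      ∫⁻ z, ENNReal.ofReal (d z ^ 2) ∂(gaussianReal 0 1) := by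
    rw [ch_split (((hφm.sub_const _).pow_const 2).ennreal_ofReal),
      ch_split ((hd.pow_const 2).ennreal_ofReal)]
    refine add_le_add (ch_half hd hM fun z => hφ z 0) ?_
    have h1 := ch_half (φ := fun z => φ (-z)) (d := fun z => -d (-z)) (M := M)
      (hd.comp measurable_neg).neg (fun z => by rw [abs_neg]; exact hM _) (fun z => by
        show φ (-z) - φ (-0) = ∫ t in (0 : ℝ)..z, -d (-t)
        rw [neg_zero, hφ (-z) 0, intervalIntegral.integral_neg,
          intervalIntegral.integral_comp_neg (fun t => d t), neg_zero,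
          intervalIntegral.integral_symm])
    simp only [neg_zero, neg_sq] at h1
    exact h1
  -- integrability
  have hid : MemLp (fun z : ℝ => z) 2 (gaussianReal 0 1) := memLp_id_gaussianReal 2
  have hgrow : ∀ z, |φ z - φ 0| ≤ M * |z| := by
    intro z
    rw [hφ z 0]
    have h1 := intervalIntegral.norm_integral_le_of_norm_le_const (a := 0) (b := z) (C := M)
      (f := d) (fun t _ => hM t)
    rw [sub_zero] at h1
    exact h1
  have hml : MemLp (fun z => φ z - φ 0) 2 (gaussianReal 0 1) := by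
    refine (hid.const_mul M).mono (hφm.sub_const _).aestronglyMeasurable
      (ae_of_all _ fun z => ?_)
    rw [Real.norm_eq_abs, Real.norm_eq_abs, abs_mul, abs_of_nonneg hM0]
    exact hgrow z
  have hi1 : Integrable (fun z => φ z - φ 0) (gaussianReal 0 1) :=
    hml.integrable (by norm_num)
  have hi2 : Integrable (fun z => (φ z - φ 0) ^ 2) (gaussianReal 0 1) := hml.integrable_sq
  have hd2 : Integrable (fun z => d z ^ 2) (gaussianReal 0 1) := by
    refine Integrable.of_bound (hd.pow_const 2).aestronglyMeasurable (M ^ 2)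
      (ae_of_all _ fun z => ?_)
    rw [norm_pow]
    exact pow_le_pow_left₀ (norm_nonneg _) (hM z) 2
  have hkey2 : ∫ z, (φ z - φ 0) ^ 2 ∂(gaussianReal 0 1) ≤
      ∫ z, d z ^ 2 ∂(gaussianReal 0 1) := by
    rw [integral_eq_lintegral_of_nonneg_ae (ae_of_all _ fun z => sq_nonneg _)
        hi2.aestronglyMeasurable,
      integral_eq_lintegral_of_nonneg_ae (ae_of_all _ fun z => sq_nonneg _)
        hd2.aestronglyMeasurable]
    refine ENNReal.toReal_mono ?_ key
    rw [← ofReal_integral_eq_lintegral_ofReal hd2 (ae_of_all _ fun z => sq_nonneg _)]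
    exact ENNReal.ofReal_ne_top
  have e1 : ∫ z, φ z ∂(gaussianReal 0 1) = (∫ z, (φ z - φ 0) ∂(gaussianReal 0 1)) + φ 0 := by
    have h1 : (fun z => φ z) = fun z => (φ z - φ 0) + φ 0 := by
      funext z
      ring
    rw [h1, integral_add hi1 (integrable_const _)]
    simp
  have e2 : ∫ z, φ z ^ 2 ∂(gaussianReal 0 1) = (∫ z, (φ z - φ 0) ^ 2 ∂(gaussianReal 0 1)) +
      2 * φ 0 * (∫ z, (φ z - φ 0) ∂(gaussianReal 0 1)) + φ 0 ^ 2 := by
    have h1 : (fun z => φ z ^ 2) = fun z =>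
        ((φ z - φ 0) ^ 2 + 2 * φ 0 * (φ z - φ 0)) + φ 0 ^ 2 := by
      funext z
      ring
    have hi3 : Integrable (fun z => (φ z - φ 0) ^ 2 + 2 * φ 0 * (φ z - φ 0))
        (gaussianReal 0 1) := hi2.add (hi1.const_mul _)
    rw [h1, integral_add hi3 (integrable_const _),
      integral_add hi2 (hi1.const_mul _), integral_const_mul]
    simp
  rw [e2, e1]
  have h9 := sq_nonneg (∫ z, (φ z - φ 0) ∂(gaussianReal 0 1))
  nlinarith

end Pool.Agent.H68.LK
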