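import Pool.Agent.H85.LK.Targets

/-! Discrete Faber-Krahn inequality for the unit ball (board lk_modules, RP). -/

set_option autoImplicit false

open MeasureTheory Metric Set ProbabilityTheory Filter
open scoped ENNReal Topology NNReal ContDiff

namespace Pool.Agent.H68.LK

open Pool.Agent.H85.LK

theorem rp_sq {a b δ : ℝ} (hδ : 0 < δ) : (a + b) ^ 2 ≤ (1 + δ) * a ^ 2 + (1 + 1 / δ) * b ^ 2 := by
  have h1 : (1 + δ) * a ^ 2 + (1 + 1 / δ) * b ^ 2 - (a + b) ^ 2 = (δ * a - b) ^ 2 / δ := by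
    field_simp
    ring
  have h2 : 0 ≤ (δ * a - b) ^ 2 / δ := by positivity
  linarith

/-- the energy estimate -/
theorem rp_energy (hRPS : T_RPS) (hRPA : T_RPA) (hLA : T_LA) {N : ℕ} (hN : 1 ≤ N) {η K' δ : ℝ}
    (hη : 0 < η) (hK' : 0 < K') (hδ : 0 < δ) (hlam : K' ≤ lam N 1 (ball (0 : E N) (1 + η))) :
    ∃ M : ℝ, 0 ≤ M ∧ ∀ (s : ℝ) (f : E N → ℝ), 0 < s → Bd (ball (0 : E N) 1) f →
      K' * ((∫ x, sm N s f x ^ 2) - ∫ x in {x : E N | 1 + η / 2 ≤ ‖x‖}, sm N s f x ^ 2) ≤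
        (1 + δ) * (∫ x, ‖fderiv ℝ (sm N s f) x‖ ^ 2) +
          (1 + 1 / δ) * M ^ 2 * ∫ x in {x : E N | 1 + η / 2 ≤ ‖x‖}, sm N s f x ^ 2 := by
  let ζ : ContDiffBump (0 : E N) := ⟨1 + η / 2, 1 + 3 * η / 4, by linarith, by linarith⟩
  have hζs : ContDiff ℝ ∞ ζ := ζ.contDiff
  have hζc : HasCompactSupport ζ := ζ.hasCompactSupport
  have hζ1 : ∀ x : E N, ‖x‖ ≤ 1 + η / 2 → ζ x = 1 := fun x hx =>
    ζ.one_of_mem_closedBall (by simpa [mem_closedBall, dist_zero_right] using hx)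
  have hζt : tsupport ζ ⊆ ball (0 : E N) (1 + η) := by
    rw [ζ.tsupport_eq]
    exact closedBall_subset_ball (by show 1 + 3 * η / 4 < 1 + η; linarith)
  obtain ⟨M, hM⟩ := (hζs.continuous_fderiv (by simp)).bounded_above_of_compact_support
    (hζc.fderiv ℝ)
  have hM0 : 0 ≤ M := (norm_nonneg _).trans (hM 0)
  refine ⟨M, hM0, fun s f hs hf => ?_⟩
  obtain ⟨hFs, -⟩ := hRPS N s f hs hf
  obtain ⟨hF2, hD2, -⟩ := hRPA N s f hs hf
  set F : E N → ℝ := sm N s f with hF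
  have hS : MeasurableSet {x : E N | 1 + η / 2 ≤ ‖x‖} :=
    (isClosed_le continuous_const continuous_norm).measurableSet
  set S : Set (E N) := {x : E N | 1 + η / 2 ≤ ‖x‖} with hSdef
  set v : E N → ℝ := fun x => ζ x * F x with hv
  have hvs : ContDiff ℝ (⊤ : ℕ∞) v := hζs.mul hFs
  have hvc : HasCompactSupport v := hζc.mul_right
  have hvt : tsupport v ⊆ ball (0 : E N) (1 + η) :=
    (tsupport_mul_subset_left).trans hζt
  have hla := hLA N (ball (0 : E N) (1 + η)) v hN hvs hvc hvt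
  have hv2i : Integrable (fun x => v x ^ 2) := by
    have c1 : Continuous (fun x => v x ^ 2) := hvs.continuous.pow 2
    have c2 : HasCompactSupport (fun x => v x ^ 2) :=
      hvc.comp_left (g := fun y : ℝ => y ^ 2) (by norm_num)
    exact c1.integrable_of_hasCompactSupport c2
  have hvdi : Integrable (fun x => ‖fderiv ℝ v x‖ ^ 2) := by
    have c1 : Continuous (fun x => ‖fderiv ℝ v x‖ ^ 2) :=
      (hvs.continuous_fderiv (by simp)).norm.pow 2
    have c2 : HasCompactSupport (fun x => ‖fderiv ℝ v x‖ ^ 2) :=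
      (hvc.fderiv ℝ).comp_left (g := fun y : E N →L[ℝ] ℝ => ‖y‖ ^ 2) (by simp)
    exact c1.integrable_of_hasCompactSupport c2
  have hSi : Integrable (S.indicator fun x => F x ^ 2) := hF2.indicator hS
  have hv20 : 0 ≤ ∫ x, v x ^ 2 := integral_nonneg fun x => sq_nonneg _
  -- lower bound for the norm of `v`
  have h1 : (∫ x, F x ^ 2) ≤ (∫ x, v x ^ 2) + ∫ x in S, F x ^ 2 := by
    rw [← integral_indicator hS, ← integral_add hv2i hSi]
    refine integral_mono hF2 (hv2i.add hSi) fun x => ?_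
    show F x ^ 2 ≤ v x ^ 2 + S.indicator (fun x => F x ^ 2) x
    by_cases hx : x ∈ S
    · rw [indicator_of_mem hx]
      nlinarith [sq_nonneg (v x)]
    · have hx' : ‖x‖ ≤ 1 + η / 2 := le_of_lt (not_le.1 hx)
      rw [indicator_of_notMem hx]
      have : v x = F x := by
        show ζ x * F x = F x
        rw [hζ1 x hx', one_mul]
      rw [this, add_zero]
  -- upper bound for the gradient
  have h2 : (∫ x, ‖fderiv ℝ v x‖ ^ 2) ≤ (1 + δ) * (∫ x, ‖fderiv ℝ F x‖ ^ 2) +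
      (1 + 1 / δ) * M ^ 2 * ∫ x in S, F x ^ 2 := by
    rw [← integral_indicator hS, ← integral_const_mul, ← integral_const_mul,
      ← integral_add (hD2.const_mul _) (hSi.const_mul _)]
    refine integral_mono hvdi ((hD2.const_mul _).add (hSi.const_mul _)) fun x => ?_
    show ‖fderiv ℝ v x‖ ^ 2 ≤ (1 + δ) * ‖fderiv ℝ F x‖ ^ 2 +
      (1 + 1 / δ) * M ^ 2 * S.indicator (fun x => F x ^ 2) x
    by_cases hx : x ∈ S
    · rw [indicator_of_mem hx]
      have hd : fderiv ℝ v x = ζ x • fderiv ℝ F x + F x • fderiv ℝ ζ x :=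
        fderiv_fun_mul (hζs.differentiable (by simp) x) (hFs.differentiable (by simp) x)
      have h3 : ‖fderiv ℝ v x‖ ≤ ‖fderiv ℝ F x‖ + M * |F x| := by
        rw [hd]
        refine (norm_add_le _ _).trans (add_le_add ?_ ?_)
        · rw [norm_smul, Real.norm_eq_abs, abs_of_nonneg ζ.nonneg]
          exact mul_le_of_le_one_left (norm_nonneg _) ζ.le_one
        · rw [norm_smul, Real.norm_eq_abs, mul_comm]
          exact mul_le_mul_of_nonneg_right (hM x) (abs_nonneg _)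
      calc ‖fderiv ℝ v x‖ ^ 2 ≤ (‖fderiv ℝ F x‖ + M * |F x|) ^ 2 :=
            pow_le_pow_left₀ (norm_nonneg _) h3 2
        _ ≤ (1 + δ) * ‖fderiv ℝ F x‖ ^ 2 + (1 + 1 / δ) * (M * |F x|) ^ 2 := rp_sq hδ
        _ = _ := by rw [mul_pow, sq_abs]; ring
    · have hx' : ‖x‖ < 1 + η / 2 := not_le.1 hx
      rw [indicator_of_notMem hx]
      have he : v =ᶠ[𝓝 x] F := by
        have ho : {y : E N | ‖y‖ < 1 + η / 2} ∈ 𝓝 x :=
          (isOpen_lt continuous_norm continuous_const).mem_nhds hx'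
        filter_upwards [ho] with y hy
        show ζ y * F y = F y
        rw [hζ1 y (le_of_lt hy), one_mul]
      rw [he.fderiv_eq, mul_zero, add_zero]
      nlinarith [sq_nonneg ‖fderiv ℝ F x‖]
  have h3 : K' * ∫ x, v x ^ 2 ≤ ∫ x, ‖fderiv ℝ v x‖ ^ 2 :=
    (mul_le_mul_of_nonneg_right hlam hv20).trans hla
  have h4 : K' * ((∫ x, F x ^ 2) - ∫ x in S, F x ^ 2) ≤ K' * ∫ x, v x ^ 2 :=
    mul_le_mul_of_nonneg_left (by linarith) hK'.le
  linarith

theorem pf_RP (hHK : T_HK) (hRPS : T_RPS) (hRPA : T_RPA) (hRPT : T_RPT) (hLA : T_LA)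
    (hSCL : T_SCL) : T_RP := by
  intro N K hN hK
  have hball : ∀ (s : ℝ) (f : E N → ℝ), 0 < s → Bd (ball (0 : E N) 1) f →
      ∫ x in ball (0 : E N) 1, sm N s f x ^ 2 ≤ ∫ x, sm N s f x ^ 2 := fun s f hs hf =>
    setIntegral_le_integral (hRPA N s f hs hf).1 (ae_of_all _ fun x => sq_nonneg _)
  rcases le_or_gt K 0 with hK0 | hK0
  · refine ⟨1, one_pos, fun s hs hs1 => ⟨by nlinarith, fun f hf => ?_⟩⟩
    obtain ⟨-, -, h1⟩ := hRPA N s f hs hf
    have h2 : 0 ≤ ∫ x, ‖fderiv ℝ (sm N s f) x‖ ^ 2 := integral_nonneg fun x => sq_nonneg _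
    have h3 : 0 ≤ ∫ x, f x ^ 2 := integral_nonneg fun x => sq_nonneg _
    have h4 : ∫ x, sm N s f x ^ 2 ≤ ∫ x, f x ^ 2 := by nlinarith
    have h5 : (1 : ℝ) ≤ (1 - s * K) ^ 2 := by
      have : 1 ≤ 1 - s * K := by nlinarith
      nlinarith
    calc ∫ x in ball (0 : E N) 1, sm N s f x ^ 2 ≤ ∫ x, sm N s f x ^ 2 := hball s f hs hf
      _ ≤ 1 * ∫ x, f x ^ 2 := by rw [one_mul]; exact h4
      _ ≤ _ := mul_le_mul_of_nonneg_right h5 h3
  · set l : ℝ := lam N 1 (ball (0 : E N) 1) with hl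
    -- the constants
    obtain ⟨K', hKK', hK'l⟩ := exists_between hK
    have hK'0 : 0 < K' := hK0.trans hKK'
    obtain ⟨η, hη0, hη1⟩ : ∃ η : ℝ, 0 < η ∧ K' * (1 + η) ^ 2 ≤ l := by
      refine ⟨min 1 ((l / K' - 1) / 3), lt_min one_pos ?_, ?_⟩
      · have : 1 < l / K' := (one_lt_div hK'0).2 hK'l
        linarith
      · set η : ℝ := min 1 ((l / K' - 1) / 3) with hη
        have h1 : η ≤ 1 := min_le_left _ _
        have h2 : η ≤ (l / K' - 1) / 3 := min_le_right _ _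
        have h3 : 0 ≤ η := by
          have : 1 < l / K' := (one_lt_div hK'0).2 hK'l
          exact le_min zero_le_one (by linarith)
        have h4 : (1 + η) ^ 2 ≤ l / K' := by nlinarith
        calc K' * (1 + η) ^ 2 ≤ K' * (l / K') := mul_le_mul_of_nonneg_left h4 hK'0.le
          _ = l := by field_simp
    have hlam : K' ≤ lam N 1 (ball (0 : E N) (1 + η)) := by
      rw [(hSCL N 1 (1 + η) (by linarith)).2.2, ← hl, le_div_iff₀ (by positivity)]
      exact hη1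
    obtain ⟨δ, hδ0, hδ1⟩ : ∃ δ : ℝ, 0 < δ ∧ K * (1 + δ) < K' := by
      refine ⟨(K' - K) / (2 * K), div_pos (by linarith) (by linarith), ?_⟩
      have : K * (1 + (K' - K) / (2 * K)) = K + (K' - K) / 2 := by
        field_simp
      rw [this]
      linarith
    obtain ⟨K2, hK2⟩ : ∃ K2, K2 = K' / (1 + δ) := ⟨_, rfl⟩
    have hKK2 : K < K2 := by
      rw [hK2, lt_div_iff₀ (by linarith)]
      exact hδ1
    have hK20 : 0 < K2 := hK0.trans hKK2
    obtain ⟨M, hM0, hen⟩ := rp_energy hRPS hRPA hLA hN hη0 hK'0 hδ0 hlam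
    obtain ⟨C, hC⟩ : ∃ C, C = K2 + (1 + 1 / δ) * M ^ 2 / (1 + δ) := ⟨_, rfl⟩
    have hC0 : 0 < C := by
      rw [hC]
      have : 0 ≤ (1 + 1 / δ) * M ^ 2 / (1 + δ) := by positivity
      linarith
    obtain ⟨Q, hQ⟩ : ∃ Q : ℝ, Q = 2 ^ ((N : ℝ) / 2) := ⟨_, rfl⟩
    have hQ0 : 0 < Q := hQ ▸ Real.rpow_pos_of_pos two_pos _
    refine ⟨min (1 / K) (min ((K2 - K) / (4 * K * K2)) ((K2 - K) * η ^ 2 / (64 * C * Q))),
      lt_min (by positivity) (lt_min (div_pos (by linarith) (by positivity))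
        (div_pos (mul_pos (by linarith) (by positivity)) (by positivity))), fun s hs hs0 => ?_⟩
    have hs1 : s ≤ 1 / K := hs0.trans (min_le_left _ _)
    have hs2 : s ≤ (K2 - K) / (4 * K * K2) :=
      hs0.trans ((min_le_right _ _).trans (min_le_left _ _))
    have hs3 : s ≤ (K2 - K) * η ^ 2 / (64 * C * Q) :=
      hs0.trans ((min_le_right _ _).trans (min_le_right _ _))
    rw [le_div_iff₀ hK0] at hs1
    rw [le_div_iff₀ (by positivity)] at hs2 hs3
    refine ⟨by linarith, fun f hf => ?_⟩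
    obtain ⟨-, -, hA⟩ := hRPA N s f hs hf
    have hen' := hen s f hs hf
    have hT := hRPT N s (η / 2) f hs (by linarith) hf
    have hP := (hHK N s hs).2.2.2.2.2.2.2 (η / 2) (by linarith)
    set A0 : ℝ := ∫ x, f x ^ 2 with hA0
    set X : ℝ := ∫ x, sm N s f x ^ 2 with hX
    set D : ℝ := ∫ x, ‖fderiv ℝ (sm N s f) x‖ ^ 2 with hD
    set T : ℝ := ∫ x in {x : E N | 1 + η / 2 ≤ ‖x‖}, sm N s f x ^ 2 with hTd
    have hA00 : 0 ≤ A0 := integral_nonneg fun x => sq_nonneg _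
    -- the tail
    have hP2 : Real.exp (-(η / 2) ^ 2 / (8 * s)) ≤ 32 * s / η ^ 2 := by
      have h1 : (-(η / 2) ^ 2 / (8 * s)) = -(η ^ 2 / (32 * s)) := by
        field_simp
        ring
      rw [h1, Real.exp_neg]
      have h2 : η ^ 2 / (32 * s) ≤ Real.exp (η ^ 2 / (32 * s)) := by
        have := Real.add_one_le_exp (η ^ 2 / (32 * s))
        linarith
      have h3 : 0 < η ^ 2 / (32 * s) := by positivity
      calc (Real.exp (η ^ 2 / (32 * s)))⁻¹ ≤ (η ^ 2 / (32 * s))⁻¹ := inv_anti₀ h3 h2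
        _ = 32 * s / η ^ 2 := by rw [inv_div]
    have hTA : T ≤ Q * (32 * s / η ^ 2) * A0 := by
      refine hT.trans (mul_le_mul_of_nonneg_right (hP.trans ?_) hA00)
      rw [← hQ]
      exact mul_le_mul_of_nonneg_left hP2 hQ0.le
    have hCT : 2 * C * (Q * (32 * s / η ^ 2)) ≤ K2 - K := by
      have h1 : 2 * C * (Q * (32 * s / η ^ 2)) = s * (64 * C * Q) / η ^ 2 := by
        field_simp
        ring
      rw [h1, div_le_iff₀ (by positivity)]
      exact hs3
    have hDl : K2 * X - C * T ≤ D := by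
      have h1 : (1 + δ) * (K2 * X - C * T) ≤ (1 + δ) * D := by
        have h2 : (1 + δ) * (K2 * X - C * T) =
            K' * (X - T) - (1 + 1 / δ) * M ^ 2 * T := by
          rw [hC, hK2]
          field_simp
          ring
        rw [h2]
        linarith
      exact le_of_mul_le_mul_left h1 (by linarith)
    have hX1 : X * (1 + 2 * s * K2) ≤ A0 * (1 + s * (K2 - K)) := by
      have h1 : X + 2 * s * (K2 * X - C * T) ≤ A0 := by
        have := mul_le_mul_of_nonneg_left hDl (show (0 : ℝ) ≤ 2 * s by linarith)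
        linarith
      have h2 : 2 * s * (C * T) ≤ s * (K2 - K) * A0 := by
        have h3 : 2 * C * T ≤ (K2 - K) * A0 := by
          calc 2 * C * T ≤ 2 * C * (Q * (32 * s / η ^ 2) * A0) :=
                mul_le_mul_of_nonneg_left hTA (by positivity)
            _ = 2 * C * (Q * (32 * s / η ^ 2)) * A0 := by ring
            _ ≤ (K2 - K) * A0 := mul_le_mul_of_nonneg_right hCT hA00
        have h4 := mul_le_mul_of_nonneg_left h3 hs.le
        linarith
      linarith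
    have hfin : 1 + s * (K2 - K) ≤ (1 - s * K) ^ 2 * (1 + 2 * s * K2) := by
      have h1 : (1 - s * K) ^ 2 * (1 + 2 * s * K2) = 1 + s * (2 * (K2 - K)) -
          s * (s * (4 * K * K2)) + s ^ 2 * K ^ 2 + 2 * s ^ 3 * K ^ 2 * K2 := by ring
      have h2 : 0 ≤ s ^ 2 * K ^ 2 := by positivity
      have h3 : 0 ≤ 2 * s ^ 3 * K ^ 2 * K2 := by positivity
      have h4 : s * (s * (4 * K * K2)) ≤ s * (K2 - K) := mul_le_mul_of_nonneg_left hs2 hs.le
      rw [h1]
      linarith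
    have hX2 : X * (1 + 2 * s * K2) ≤ ((1 - s * K) ^ 2 * A0) * (1 + 2 * s * K2) := by
      calc X * (1 + 2 * s * K2) ≤ A0 * (1 + s * (K2 - K)) := hX1
        _ ≤ A0 * ((1 - s * K) ^ 2 * (1 + 2 * s * K2)) := mul_le_mul_of_nonneg_left hfin hA00
        _ = _ := by ring
    exact (hball s f hs hf).trans (le_of_mul_le_mul_right hX2 (by positivity))

end Pool.Agent.H68.LK
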